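import Pool.Agent.W845.GL.Stm

/-!
# Separation of the degrees (project GL, problem MP_516c40_co)
-/

set_option autoImplicit false

namespace Pool.Agent.W212.GL

open Pool.Agent.W845.GL Finset

/-- one factor of the degree -/
noncomputable def gg (j : ℕ) (r : Bool) : ℝ := (1 + bb j * sg r) * (1 + aa j * bb j * sg r)

/-- product of the first factors -/
noncomputable def PD (i : ℕ) (f : ℕ → Bool) : ℝ := ∏ j ∈ range i, gg j (f j)

/-- the extension of a point by `true` -/
def ex {i : ℕ} (x : Fin i → Bool) (j : ℕ) : Bool := if h : j < i then x ⟨j, h⟩ else true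

theorem DD_eq (i : ℕ) (x : Fin i → Bool) : DD i x = PD i (ex x) := by
  unfold DD PD
  rw [Finset.prod_range]
  refine Finset.prod_congr rfl fun j _ => ?_
  unfold gg ex
  rw [dif_pos j.2]

theorem bb_pos (j : ℕ) : 0 < bb j := by unfold bb; positivity

theorem bb_succ (j : ℕ) : bb j = 16 * bb (j + 1) := by
  unfold bb
  rw [pow_succ (1 / 16 : ℝ) (j + 1)]
  ring

theorem bb_anti {M J : ℕ} (h : M ≤ J) : bb J ≤ bb M := by
  unfold bb
  exact pow_le_pow_of_le_one (by norm_num) (by norm_num) (by omega)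

theorem bb_le (j : ℕ) : bb j ≤ 1 / 16 := by
  have := bb_anti (Nat.zero_le j)
  unfold bb at this ⊢
  simpa using this

theorem sum_bb (M t : ℕ) : ∑ s ∈ range t, bb (M + 1 + s) = (bb M - bb (M + t)) / 15 := by
  induction t with
  | zero => simp
  | succ t ih =>
    rw [sum_range_succ, ih]
    have h := bb_succ (M + t)
    have e1 : M + 1 + t = M + t + 1 := by ring
    have e2 : M + (t + 1) = M + t + 1 := by ring
    rw [e1, e2]
    linarith

theorem gg_bds (ha : ∀ j, 0 < aa j ∧ aa j ≤ 1) (j : ℕ) (r : Bool) :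
    1 - 2 * bb j ≤ gg j r ∧ gg j r * (1 - 2 * bb j) ≤ 1 ∧ 0 < gg j r := by
  obtain ⟨h1, h2⟩ := ha j
  have h3 := bb_pos j
  have h4 := bb_le j
  have h5 : 0 < aa j * bb j := mul_pos h1 h3
  have h6 : aa j * bb j ≤ bb j := by nlinarith
  unfold gg sg
  cases r
  · simp only [Bool.false_eq_true, if_false]
    refine ⟨?_, ?_, ?_⟩
    · nlinarith
    · have : (1 + bb j * -1) * (1 + aa j * bb j * -1) ≤ 1 := by nlinarith
      have h7 : 0 ≤ (1 + bb j * -1) * (1 + aa j * bb j * -1) :=
        mul_nonneg (by linarith) (by linarith)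
      nlinarith
    · exact mul_pos (by linarith) (by linarith)
  · simp only [if_true, mul_one]
    refine ⟨?_, ?_, ?_⟩
    · nlinarith
    · have h7 : (1 + bb j) * (1 + aa j * bb j) ≤ (1 + bb j) * (1 + bb j) :=
        mul_le_mul_of_nonneg_left (by linarith) (by linarith)
      have h8 : (1 + bb j) * (1 + aa j * bb j) * (1 - 2 * bb j) ≤
          (1 + bb j) * (1 + bb j) * (1 - 2 * bb j) :=
        mul_le_mul_of_nonneg_right h7 (by linarith)
      refine h8.trans ?_
      have h9 : 0 ≤ bb j ^ 2 := by positivity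
      have h10 : 0 ≤ bb j ^ 3 := by positivity
      nlinarith
    · exact mul_pos (by linarith) (by linarith)

theorem tail_bds (ha : ∀ j, 0 < aa j ∧ aa j ≤ 1) (M : ℕ) (f : ℕ → Bool) (t : ℕ) :
    1 - 2 * (∑ s ∈ range t, bb (M + 1 + s)) ≤ ∏ s ∈ range t, gg (M + 1 + s) (f (M + 1 + s)) ∧
    (∏ s ∈ range t, gg (M + 1 + s) (f (M + 1 + s))) *
      (1 - 2 * (∑ s ∈ range t, bb (M + 1 + s))) ≤ 1 := by
  induction t with
  | zero => simp
  | succ t ih =>
    obtain ⟨ih1, ih2⟩ := ih
    obtain ⟨g1, g2, g3⟩ := gg_bds ha (M + 1 + t) (f (M + 1 + t))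
    have hP : 0 < ∏ s ∈ range t, gg (M + 1 + s) (f (M + 1 + s)) :=
      prod_pos fun s _ => (gg_bds ha _ _).2.2
    have hs : 0 ≤ ∑ s ∈ range t, bb (M + 1 + s) := sum_nonneg fun s _ => (bb_pos _).le
    have hs' : ∑ s ∈ range t, bb (M + 1 + s) ≤ 1 / 15 := by
      rw [sum_bb]
      have := bb_le M
      have := bb_pos (M + t)
      linarith
    have hb := bb_pos (M + 1 + t)
    have hb' := bb_le (M + 1 + t)
    rw [prod_range_succ, sum_range_succ]
    generalize ∏ s ∈ range t, gg (M + 1 + s) (f (M + 1 + s)) = P at *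
    generalize ∑ s ∈ range t, bb (M + 1 + s) = σ at *
    generalize gg (M + 1 + t) (f (M + 1 + t)) = g at *
    generalize bb (M + 1 + t) = b at *
    constructor
    · have h1 : (1 - 2 * σ) * (1 - 2 * b) ≤ P * g :=
        mul_le_mul ih1 g1 (by linarith) hP.le
      nlinarith [mul_nonneg hs hb.le]
    · have h1 : P * (1 - 2 * σ) * (g * (1 - 2 * b)) ≤ 1 * 1 :=
        mul_le_mul ih2 g2 (mul_nonneg g3.le (by linarith)) (by norm_num)
      have h2 : P * g * (1 - 2 * (σ + b)) ≤ P * g * ((1 - 2 * σ) * (1 - 2 * b)) := by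
        apply mul_le_mul_of_nonneg_left _ (mul_pos hP g3).le
        nlinarith [mul_nonneg hs hb.le]
      calc P * g * (1 - 2 * (σ + b)) ≤ P * g * ((1 - 2 * σ) * (1 - 2 * b)) := h2
        _ = P * (1 - 2 * σ) * (g * (1 - 2 * b)) := by ring
        _ ≤ 1 := by linarith

theorem main_ineq (ha : ∀ j, 0 < aa j ∧ aa j ≤ 1) (M i i' : ℕ) (f f' : ℕ → Bool) (hi : M < i)
    (hi' : M < i') (hff : ∀ j < M, f j = f' j) (hf : f M = true) (hf' : f' M = false) :
    (1 + bb M) * PD i' f' ≤ PD i f := by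
  obtain ⟨t, rfl⟩ : ∃ t, i = M + 1 + t := ⟨i - (M + 1), by omega⟩
  obtain ⟨t', rfl⟩ : ∃ t, i' = M + 1 + t := ⟨i' - (M + 1), by omega⟩
  unfold PD
  rw [prod_range_add _ (M + 1) t', prod_range_add _ (M + 1) t, prod_range_succ, prod_range_succ,
    hf, hf']
  have e : ∏ j ∈ range M, gg j (f j) = ∏ j ∈ range M, gg j (f' j) :=
    prod_congr rfl fun j hj => by rw [hff j (mem_range.mp hj)]
  rw [e]
  have hP : 0 < ∏ j ∈ range M, gg j (f' j) := prod_pos fun s _ => (gg_bds ha _ _).2.2
  obtain ⟨a1, -⟩ := tail_bds ha M f t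
  obtain ⟨-, a2⟩ := tail_bds ha M f' t'
  have s1 := sum_bb M t
  have s2 := sum_bb M t'
  have p1 := bb_pos (M + t)
  have p2 := bb_pos (M + t')
  have hT : 0 < ∏ s ∈ range t', gg (M + 1 + s) (f' (M + 1 + s)) :=
    prod_pos fun s _ => (gg_bds ha _ _).2.2
  have hb := bb_pos M
  have hb' := bb_le M
  obtain ⟨ha1, ha2⟩ := ha M
  have hab : 0 < aa M * bb M := mul_pos ha1 hb
  have hab' : aa M * bb M ≤ bb M := by nlinarith
  have g1 : 1 + bb M ≤ gg M true := by
    unfold gg sg
    simp only [if_true, mul_one]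
    nlinarith
  have g2 : gg M false ≤ 1 - bb M := by
    unfold gg sg
    simp only [Bool.false_eq_true, if_false]
    nlinarith
  have g2' : 0 < gg M false := (gg_bds ha _ _).2.2
  rw [s1] at a1
  rw [s2] at a2
  generalize ∏ j ∈ range M, gg j (f' j) = P at *
  generalize ∏ s ∈ range t, gg (M + 1 + s) (f (M + 1 + s)) = T at *
  generalize ∏ s ∈ range t', gg (M + 1 + s) (f' (M + 1 + s)) = T' at *
  generalize gg M true = u at *
  generalize gg M false = u' at *
  generalize bb M = b at *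
  have t1 : 1 - 2 * b / 15 ≤ T := by linarith
  have t2 : T' * (1 - 2 * b / 15) ≤ 1 := by
    refine le_trans (mul_le_mul_of_nonneg_left ?_ hT.le) a2
    linarith
  have hτ : 0 < 1 - 2 * b / 15 := by linarith
  have k1 : (1 + b) * (1 - 2 * b / 15) ≤ u * T :=
    mul_le_mul g1 t1 hτ.le (by linarith)
  have k2 : (1 + b) * (u' * T') ≤ (1 + b) * (1 - 2 * b / 15) := by
    apply mul_le_mul_of_nonneg_left _ (by linarith)
    have k3 : u' * T' * (1 - 2 * b / 15) ≤ (1 - 2 * b / 15) * (1 - 2 * b / 15) := by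
      calc u' * T' * (1 - 2 * b / 15) = u' * (T' * (1 - 2 * b / 15)) := by ring
        _ ≤ u' * 1 := mul_le_mul_of_nonneg_left t2 g2'.le
        _ ≤ 1 - b := by linarith
        _ ≤ (1 - 2 * b / 15) * (1 - 2 * b / 15) := by nlinarith [sq_nonneg b]
    exact le_of_mul_le_mul_right k3 hτ
  calc (1 + b) * (P * u' * T') = P * ((1 + b) * (u' * T')) := by ring
    _ ≤ P * (u * T) := mul_le_mul_of_nonneg_left (k2.trans k1) hP.le
    _ = P * u * T := by ring

theorem sep : S_T0 → S_DB → S_SEP := by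
  intro h0 hDB J
  have ha := h0.1
  refine ⟨bb J / 2, half_pos (bb_pos J), ?_⟩
  intro i hi x i' hi' x' hx hx'
  have hne : ∃ j, ex x j ≠ ex x' j := by
    refine ⟨J, ?_⟩
    unfold ex
    rw [dif_pos hi, dif_pos hi', hx, hx']
    exact Bool.noConfusion
  classical
  have hM := Nat.find_spec hne
  have hMmin : ∀ j < Nat.find hne, ex x j = ex x' j := fun j hj => by
    have := Nat.find_min hne hj
    exact not_not.mp this
  have hMJ : Nat.find hne ≤ J := by
    refine Nat.find_min' hne ?_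
    unfold ex
    rw [dif_pos hi, dif_pos hi', hx, hx']
    exact Bool.noConfusion
  generalize Nat.find hne = M at hM hMmin hMJ
  have hb := bb_anti hMJ
  have hd := (hDB i x).1
  have hd' := (hDB i' x').1
  rw [DD_eq] at hd
  rw [DD_eq] at hd'
  rw [DD_eq, DD_eq]
  have hbJ := bb_pos J
  cases hxM : ex x M
  · have hx'M : ex x' M = true := by
      cases h : ex x' M
      · exact absurd (hxM.trans h.symm) hM
      · rfl
    have h := main_ineq ha M i' i (ex x') (ex x) (by omega) (by omega)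
      (fun j hj => (hMmin j hj).symm) hx'M hxM
    rw [abs_sub_comm]
    refine le_trans ?_ (le_abs_self _)
    nlinarith
  · have hx'M : ex x' M = false := by
      cases h : ex x' M
      · rfl
      · exact absurd (hxM.trans h.symm) hM
    have h := main_ineq ha M i i' (ex x) (ex x') (by omega) (by omega) hMmin hxM hx'M
    refine le_trans ?_ (le_abs_self _)
    nlinarith

end Pool.Agent.W212.GL
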